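import Mathlib

open Set Filter Topology Metric ComplexConjugate
open scoped ComplexOrder

namespace Pool.Agent.Results.MP_72b8ed_an.NotDiag

/-- positive semidefinite functions on `Ω × Ω` -/
def Kernel (Ω : Set ℂ) (f : ℂ → ℂ → ℂ) : Prop :=
  ∀ (n : ℕ) (z c : Fin n → ℂ), (∀ i, z i ∈ Ω) → 0 ≤ ∑ i, ∑ j, c i * conj (c j) * f (z i) (z j)

/-- holomorphic in `z`, antiholomorphic in `w` -/
def Holo (Ω : Set ℂ) (f : ℂ → ℂ → ℂ) : Prop :=
  (∀ w ∈ Ω, DifferentiableOn ℂ (fun z => f z w) Ω) ∧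
    ∀ z ∈ Ω, DifferentiableOn ℂ (fun w => conj (f z w)) Ω

local instance : OrderClosedTopology ℂ := Complex.orderClosedTopology

abbrev D : Set ℂ := ball 0 1

lemma K_one : Kernel D fun _ _ => 1 := by
  intro n z c _
  have : ∑ i, ∑ j, c i * conj (c j) * 1 = (∑ i, c i) * conj (∑ i, c i) := by
    simp [Finset.sum_mul_sum, map_sum]
  rw [this, Complex.mul_conj]
  exact_mod_cast Complex.normSq_nonneg _

lemma K_rank {f : ℂ → ℂ → ℂ} (hf : Kernel D f) (φ : ℂ → ℂ) {a : ℝ} (ha : 0 ≤ a) :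
    Kernel D fun z w => f z w * (a * φ z * conj (φ w)) := by
  intro n z c hz
  have := hf n z (fun i => c i * φ (z i)) hz
  have e : ∑ i, ∑ j, c i * conj (c j) * (f (z i) (z j) * (a * φ (z i) * conj (φ (z j)))) =
      a * ∑ i, ∑ j, c i * φ (z i) * conj (c j * φ (z j)) * f (z i) (z j) := by
    simp only [Finset.mul_sum, map_mul]
    exact Finset.sum_congr rfl fun i _ => Finset.sum_congr rfl fun j _ => by ring
  rw [e]
  exact mul_nonneg (by exact_mod_cast ha) this

lemma K_add {f g : ℂ → ℂ → ℂ} (hf : Kernel D f) (hg : Kernel D g) :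
    Kernel D fun z w => f z w + g z w := by
  intro n z c hz
  simp only [mul_add, Finset.sum_add_distrib]
  exact add_nonneg (hf n z c hz) (hg n z c hz)

lemma K_sum {f : ℕ → ℂ → ℂ → ℂ} {g : ℂ → ℂ → ℂ} (hf : ∀ b, Kernel D (f b))
    (hs : ∀ z ∈ D, ∀ w ∈ D, HasSum (fun b => f b z w) (g z w)) : Kernel D g := by
  intro n z c hz
  have : HasSum (fun b => ∑ i, ∑ j, c i * conj (c j) * f b (z i) (z j))
      (∑ i, ∑ j, c i * conj (c j) * g (z i) (z j)) :=
    hasSum_sum fun i _ => hasSum_sum fun j _ => (hs _ (hz i) _ (hz j)).mul_left _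
  exact this.nonneg fun b => hf b n z c hz

lemma K_congr {f g : ℂ → ℂ → ℂ} (hf : Kernel D f) (h : ∀ z ∈ D, ∀ w ∈ D, f z w = g z w) :
    Kernel D g := by
  intro n z c hz
  have := hf n z c hz
  simpa only [h _ (hz _) _ (hz _)] using this

noncomputable def th (b : ℕ) : ℝ := 1 / 4 * (1 / (b : ℝ) ^ 2)

lemma th_nonneg (b : ℕ) : 0 ≤ th b := by unfold th; positivity
lemma th_zero : th 0 = 0 := by simp [th]
lemma th_sum : HasSum th (1 / 4 * (Real.pi ^ 2 / 6)) := hasSum_zeta_two.mul_left _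
lemma th_le : 1 / 4 * (Real.pi ^ 2 / 6) ≤ 2 / 3 := by nlinarith [Real.pi_le_four, Real.pi_pos]

noncomputable def ka : ℕ → ℝ
  | 0 => 1
  | b + 1 => ∑ u : Fin (b + 1), th (u + 1) * ka (b - u)
decreasing_by omega

lemma ka_succ (b : ℕ) : ka (b + 1) = ∑ u ∈ Finset.range (b + 1), th (u + 1) * ka (b - u) := by
  rw [ka, Fin.sum_univ_eq_sum_range (fun u => th (u + 1) * ka (b - u))]

lemma ka_pos (b : ℕ) : 0 < ka b := by
  induction b using Nat.strong_induction_on with
  | _ b ih =>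
    cases b with
    | zero => simp [ka]
    | succ b =>
      rw [ka_succ]
      refine Finset.sum_pos (fun u hu => mul_pos ?_ (ih _ (by omega))) (by simp)
      unfold th; positivity

lemma ka_conv (b : ℕ) : ∑ p ∈ Finset.HasAntidiagonal.antidiagonal b, th p.1 * ka p.2 =
    ka b - if b = 0 then 1 else 0 := by
  cases b with
  | zero => simp [th_zero, ka]
  | succ b =>
    rw [Finset.Nat.sum_antidiagonal_succ, th_zero, ka_succ,
      Finset.Nat.sum_antidiagonal_eq_sum_range_succ (fun a c => th (a + 1) * ka c)]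
    simp

lemma ka_summable : Summable ka := by
  refine summable_of_sum_range_le (c := 3) (fun b => (ka_pos b).le) fun n => ?_
  have h1 : ∑ b ∈ Finset.range n, ∑ p ∈ Finset.HasAntidiagonal.antidiagonal b, th p.1 * ka p.2 ≤
      (∑ a ∈ Finset.range n, th a) * ∑ c ∈ Finset.range n, ka c := by
    rw [Finset.sum_mul_sum, ← Finset.sum_product', Finset.sum_sigma']
    rw [← Finset.sum_image (s := (Finset.range n).sigma Finset.HasAntidiagonal.antidiagonal)
      (g := fun x => x.2) (f := fun p : ℕ × ℕ => th p.1 * ka p.2)]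
    · refine Finset.sum_le_sum_of_subset_of_nonneg (fun x hx => ?_)
        fun x _ _ => mul_nonneg (th_nonneg _) (ka_pos _).le
      simp only [Finset.mem_image, Finset.mem_sigma, Finset.mem_range,
        Finset.HasAntidiagonal.mem_antidiagonal] at hx
      obtain ⟨y, ⟨h1, h2⟩, rfl⟩ := hx
      simp only [Finset.mem_product, Finset.mem_range]
      omega
    · rintro ⟨a, p⟩ ha ⟨b, q⟩ hb h
      simp only [Finset.mem_coe, Finset.mem_sigma,
        Finset.HasAntidiagonal.mem_antidiagonal] at ha hb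
      simp only at h
      subst h
      obtain rfl : a = b := ha.2.symm.trans hb.2
      rfl
  simp only [ka_conv, Finset.sum_sub_distrib] at h1
  have h2 : ∑ a ∈ Finset.range n, th a ≤ 2 / 3 :=
    (sum_le_hasSum _ (fun b _ => th_nonneg b) th_sum).trans th_le
  have h3 : ∑ b ∈ Finset.range n, (if b = 0 then (1 : ℝ) else 0) ≤ 1 := by
    rw [Finset.sum_ite_eq']; split_ifs <;> norm_num
  have h4 : 0 ≤ ∑ c ∈ Finset.range n, ka c := Finset.sum_nonneg fun b _ => (ka_pos b).le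
  nlinarith

noncomputable def Th (x : ℂ) : ℂ := ∑' b, (th b : ℂ) * x ^ b

lemma bd {a : ℕ → ℝ} (ha : ∀ b, 0 ≤ a b) {x : ℂ} (hx : ‖x‖ ≤ 1) (b : ℕ) :
    ‖(a b : ℂ) * x ^ b‖ ≤ a b := by
  rw [norm_mul, norm_pow, Complex.norm_real, Real.norm_eq_abs, abs_of_nonneg (ha b)]
  exact mul_le_of_le_one_right (ha b) (pow_le_one₀ (norm_nonneg _) hx)

lemma Th_sum {x : ℂ} (hx : ‖x‖ ≤ 1) : HasSum (fun b => (th b : ℂ) * x ^ b) (Th x) :=
  (Summable.of_norm_bounded th_sum.summable (bd th_nonneg hx)).hasSum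

lemma Th_le {x : ℂ} (hx : ‖x‖ ≤ 1) : ‖Th x‖ ≤ 2 / 3 :=
  (tsum_of_norm_bounded th_sum (bd th_nonneg hx)).trans th_le

lemma Th_diff : DifferentiableOn ℂ Th D :=
  Complex.differentiableOn_tsum_of_summable_norm th_sum.summable (fun b => by fun_prop) isOpen_ball
    fun b x hx => bd th_nonneg (mem_ball_zero_iff.1 hx).le b

lemma Th_conj (x : ℂ) : conj (Th x) = Th (conj x) := by
  unfold Th
  rw [Complex.conj_tsum]; simp

lemma ka_hasSum {x : ℂ} (hx : ‖x‖ ≤ 1) :
    HasSum (fun b => (ka b : ℂ) * x ^ b) (1 / (1 - Th x)) := by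
  have s1 : Summable fun b => ‖(th b : ℂ) * x ^ b‖ :=
    Summable.of_nonneg_of_le (fun _ => norm_nonneg _) (bd th_nonneg hx) th_sum.summable
  have s2 : Summable fun b => ‖(ka b : ℂ) * x ^ b‖ :=
    Summable.of_nonneg_of_le (fun _ => norm_nonneg _) (bd (fun b => (ka_pos b).le) hx) ka_summable
  have h := tsum_mul_tsum_eq_tsum_sum_antidiagonal_of_summable_norm s1 s2
  have e : ∀ b, ∑ p ∈ Finset.HasAntidiagonal.antidiagonal b, (th p.1 : ℂ) * x ^ p.1 * ((ka p.2 : ℂ) * x ^ p.2) =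
      (ka b : ℂ) * x ^ b - if b = 0 then 1 else 0 := by
    intro b
    have : ∑ p ∈ Finset.HasAntidiagonal.antidiagonal b, (th p.1 : ℂ) * x ^ p.1 * ((ka p.2 : ℂ) * x ^ p.2) =
        ((∑ p ∈ Finset.HasAntidiagonal.antidiagonal b, th p.1 * ka p.2 : ℝ) : ℂ) * x ^ b := by
      push_cast
      rw [Finset.sum_mul]
      refine Finset.sum_congr rfl fun p hp => ?_
      rw [← Finset.HasAntidiagonal.mem_antidiagonal.1 hp]; ring
    rw [this, ka_conv]
    split_ifs with hb
    · simp [hb]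
    · simp
  simp only [e] at h
  rw [(s2.of_norm.hasSum.sub (hasSum_ite_eq 0 (1 : ℂ))).tsum_eq] at h
  have hne : 1 - Th x ≠ 0 := by
    intro h0
    have := Th_le hx
    rw [← sub_eq_zero.1 h0] at this
    norm_num at this
  have : ∑' b, (ka b : ℂ) * x ^ b = 1 / (1 - Th x) := by
    rw [eq_div_iff hne]
    unfold Th
    linear_combination -h
  exact this ▸ s2.of_norm.hasSum

noncomputable def ψ (z : ℂ) : ℂ := z + z ^ 2
noncomputable def t (z w : ℂ) : ℂ := Th (z * conj w) + ((1 / 16 : ℝ) : ℂ) * ψ z * conj (ψ w)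

lemma mul_le {z w : ℂ} (hz : z ∈ D) (hw : w ∈ D) : ‖z * conj w‖ < 1 := by
  rw [mem_ball_zero_iff] at hz hw
  rw [norm_mul, Complex.norm_conj]
  exact mul_lt_one_of_nonneg_of_lt_one_left (norm_nonneg _) hz hw.le

lemma ψ_le {z : ℂ} (hz : z ∈ D) : ‖ψ z‖ ≤ 2 := by
  rw [mem_ball_zero_iff] at hz
  refine (norm_add_le _ _).trans ?_
  rw [norm_pow]; nlinarith [norm_nonneg z]

lemma t_lt {z w : ℂ} (hz : z ∈ D) (hw : w ∈ D) : ‖t z w‖ < 1 := by
  refine (norm_add_le _ _).trans_lt ?_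
  rw [norm_mul, norm_mul, Complex.norm_conj, Complex.norm_real, Real.norm_eq_abs,
    abs_of_pos (by norm_num)]
  have := mul_le_mul (ψ_le hz) (ψ_le hw) (norm_nonneg _) (by norm_num)
  nlinarith [Th_le (mul_le hz hw).le]

lemma ne_of_lt1 {a : ℂ} (h : ‖a‖ < 1) : 1 - a ≠ 0 := by
  intro h0
  rw [← sub_eq_zero.1 h0] at h
  norm_num at h

lemma K_mul_t {f : ℂ → ℂ → ℂ} (hf : Kernel D f) : Kernel D fun z w => f z w * t z w := by
  have h1 : Kernel D fun z w => f z w * Th (z * conj w) :=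
    K_sum (fun b => K_rank hf (fun z => z ^ b) (th_nonneg b)) fun z hz w hw => by
      have := (Th_sum (mul_le hz hw).le).mul_left (f z w)
      simpa only [mul_pow, map_pow, mul_assoc] using this
  exact K_congr (K_add h1 (K_rank hf ψ (a := 1 / 16) (by norm_num))) fun z _ w _ => by
    simp only [t]; ring

lemma holo_of {f : ℂ → ℂ → ℂ} (h1 : ∀ w ∈ D, DifferentiableOn ℂ (fun z => f z w) D)
    (h2 : ∀ z w, conj (f z w) = f w z) : Holo D f :=
  ⟨h1, fun z hz => by simpa only [h2] using h1 z hz⟩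

lemma Th_diff' {w : ℂ} (hw : w ∈ D) : DifferentiableOn ℂ (fun z => Th (z * conj w)) D :=
  Th_diff.comp (by fun_prop) fun z hz => mem_ball_zero_iff.2 (mul_le hz hw)

theorem result : ∃ (Ω : Set ℂ) (κ ϑ : ℕ → ℝ) (k h s : ℂ → ℂ → ℂ),
    IsOpen Ω ∧ IsConnected Ω ∧ 0 ∈ Ω ∧
    Kernel Ω k ∧ Holo Ω k ∧ κ 0 = 1 ∧ (∀ a, 0 < κ a) ∧
    (∀ z ∈ Ω, ∀ w ∈ Ω, HasSum (fun a => (κ a : ℂ) * z ^ a * conj w ^ a) (k z w)) ∧
    ϑ 0 = 0 ∧ ϑ 1 = κ 1 ∧
    (∀ b, 2 ≤ b → ϑ b = max 0 (κ b - ∑ u ∈ Finset.Ioo 0 b, ϑ u * κ (b - u))) ∧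
    interior {x : ℂ | BddAbove (range fun b => ϑ b * ‖x‖ ^ (2 * b))} ⊆ Ω ∧
    Kernel Ω h ∧ Kernel Ω s ∧ Holo Ω s ∧ (∀ z ∈ Ω, s z 0 = 1) ∧
    (∀ z ∈ Ω, ∀ w ∈ Ω, s z w ≠ 0) ∧ Kernel Ω (fun z w => 1 - 1 / s z w) ∧
    (∀ z ∈ Ω, ∀ w ∈ Ω, k z w = (1 - h z w) * s z w) ∧
    ¬ ∃ (f : ℕ → ℂ) (r : ℝ), 0 < r ∧ ∀ z ∈ ball (0 : ℂ) r, ∀ w ∈ ball (0 : ℂ) r,
      HasSum (fun a => f a * z ^ a * conj w ^ a) (s z w) := by
  have hk : ∀ z ∈ D, ∀ w ∈ D, HasSum (fun a => (ka a : ℂ) * z ^ a * conj w ^ a)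
      (1 / (1 - Th (z * conj w))) := fun z hz w hw => by
    simpa only [mul_pow, mul_assoc] using ka_hasSum (mul_le hz hw).le
  have hThne : ∀ z ∈ D, ∀ w ∈ D, 1 - Th (z * conj w) ≠ 0 := fun z hz w hw =>
    ne_of_lt1 ((Th_le (mul_le hz hw).le).trans_lt (by norm_num))
  have hKk : Kernel D fun z w => 1 / (1 - Th (z * conj w)) :=
    K_sum (fun b => K_rank K_one (fun z => z ^ b) (ka_pos b).le) fun z hz w hw => by
      simpa only [one_mul, map_pow] using hk z hz w hw
  have hpow : ∀ n : ℕ, Kernel D fun z w => t z w ^ n := by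
    intro n
    induction n with
    | zero => simpa using K_one
    | succ n ih => simpa only [pow_succ] using K_mul_t ih
  refine ⟨D, ka, th, fun z w => 1 / (1 - Th (z * conj w)),
    fun z w => 1 / (1 - Th (z * conj w)) * (((1 / 16 : ℝ) : ℂ) * ψ z * conj (ψ w)),
    fun z w => 1 / (1 - t z w), isOpen_ball, (convex_ball 0 1).isConnected ⟨0, by simp⟩, by simp,
    hKk, holo_of (fun w hw => (differentiableOn_const 1).div
      ((differentiableOn_const 1).sub (Th_diff' hw)) fun z hz => hThne z hz w hw) fun z w => ?_,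
    by simp [ka], ka_pos, hk, th_zero, by simp [ka_succ, ka], fun b hb => ?_, fun x hx => ?_,
    K_rank hKk ψ (by norm_num), K_sum hpow fun z hz w hw => ?_,
    holo_of (fun w hw => (differentiableOn_const 1).div ((differentiableOn_const 1).sub ?_)
      fun z hz => ne_of_lt1 (t_lt hz hw)) fun z w => ?_, fun z _ => ?_,
    fun z hz w hw => one_div_ne_zero (ne_of_lt1 (t_lt hz hw)), ?_, fun z hz w hw => ?_, ?_⟩
  · simp [Th_conj, mul_comm]
  · obtain ⟨b, rfl⟩ : ∃ c, b = c + 1 := ⟨b - 1, by omega⟩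
    have e : ∑ u ∈ Finset.Ioo 0 (b + 1), th u * ka (b + 1 - u) =
        ∑ u ∈ Finset.range b, th (u + 1) * ka (b - u) := by
      rw [show Finset.Ioo 0 (b + 1) = Finset.Ico 1 (b + 1) from rfl, Finset.sum_Ico_eq_sum_range]
      refine Finset.sum_congr (by simp) fun u _ => ?_
      rw [add_comm 1 u, Nat.add_sub_add_right]
    rw [e, ka_succ, Finset.sum_range_succ]
    simp [ka, th_nonneg]
  · by_contra hx1
    rw [mem_ball_zero_iff, not_lt] at hx1
    have hc : ContinuousAt (fun r : ℝ => (r : ℂ) * x) 1 := by fun_prop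
    have h1 : ∀ᶠ r : ℝ in 𝓝[>] 1, (r : ℂ) * x ∈
        {x : ℂ | BddAbove (range fun b => th b * ‖x‖ ^ (2 * b))} :=
      nhdsWithin_le_nhds (hc.preimage_mem_nhds (by simpa using mem_interior_iff_mem_nhds.1 hx))
    obtain ⟨r, ⟨M, hM⟩, hr⟩ := (h1.and self_mem_nhdsWithin).exists
    replace hr : 1 < r := hr
    have hn : 1 < ‖(r : ℂ) * x‖ ^ 2 := by
      rw [norm_mul, Complex.norm_real, Real.norm_eq_abs, abs_of_pos (by linarith)]
      have : 1 < r * ‖x‖ := by nlinarith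
      nlinarith
    set q := ‖(r : ℂ) * x‖ ^ 2 with hq
    have h2 := (tendsto_pow_const_div_const_pow_of_one_lt 2 hn).const_mul (4 * M)
    rw [mul_zero] at h2
    obtain ⟨b, hb1, hb2⟩ := ((h2.eventually_lt_const one_pos).and (eventually_gt_atTop 0)).exists
    have h3 := hM ⟨b, rfl⟩
    simp only [th, pow_mul, ← hq] at h3
    have hb0 : (0 : ℝ) < b := by exact_mod_cast hb2
    have hqb : 0 < q ^ b := by positivity
    rw [← mul_div_assoc, div_lt_one hqb] at hb1
    rw [mul_assoc, one_div_mul_eq_div, one_div_mul_eq_div, div_le_iff₀ (by norm_num),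
      div_le_iff₀ (by positivity)] at h3
    linarith
  · simpa only [one_div] using hasSum_geometric_of_norm_lt_one (t_lt hz hw)
  · exact (Th_diff' hw).add (by unfold ψ; fun_prop)
  · simp only [t, map_div₀, map_one, map_sub, map_add, map_mul, Th_conj, Complex.conj_conj,
      Complex.conj_ofReal, mul_comm (conj z) w]
    ring
  · have : Th 0 = 0 := by
      have h := Th_sum (x := 0) (by simp)
      refine h.unique ?_
      convert hasSum_zero with b
      cases b <;> simp [th_zero]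
    simp [t, ψ, this]
  · exact K_congr (hpow 1) fun z hz w hw => by simp
  · have h1 := hThne z hz w hw
    have h2 := ne_of_lt1 (t_lt hz hw)
    field_simp
    simp only [t]; ring
  · rintro ⟨f, r, hr, hs⟩
    set a := min r 1 / 2 with ha
    have ha0 : 0 < a := by positivity
    have har : a < r := by have := min_le_left r 1; linarith
    have ha1 : a < 1 := by have := min_le_right r 1; linarith
    have m1 : (a : ℂ) ∈ ball (0 : ℂ) r := by
      rw [mem_ball_zero_iff, Complex.norm_real, Real.norm_eq_abs, abs_of_pos ha0]; exact har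
    have m2 : (-a : ℂ) ∈ ball (0 : ℂ) r := by simpa using m1
    have h1 := hs _ m1 _ m1
    have h2 := hs _ m2 _ m2
    have e : (fun b => f b * (-a : ℂ) ^ b * conj (-a : ℂ) ^ b) =
        fun b => f b * (a : ℂ) ^ b * conj (a : ℂ) ^ b := by
      funext b
      rw [mul_assoc, mul_assoc, ← mul_pow, ← mul_pow]; simp
    rw [e] at h2
    have h3 := h1.unique h2
    simp only [one_div, inv_inj, sub_right_inj, t, ψ, map_neg, neg_mul_neg, add_right_inj,
      map_add, map_pow, Complex.conj_ofReal] at h3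
    have h4 : (a : ℂ) ^ 3 = 0 := by
      push_cast at h3
      linear_combination 4 * h3
    exact ha0.ne' (by exact_mod_cast pow_eq_zero_iff (by norm_num) |>.1 h4)

end Pool.Agent.Results.MP_72b8ed_an.NotDiag
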